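import Mathlib
import Pool.Agent.Q307.CF.Co

/-!
# Luzin sets which are small unions of meager sets
-/

set_option autoImplicit false

namespace Pool.Agent.Q307.LU

open Cardinal Pool.Agent.Helper669.Forcing Pool.Agent.Q307.CF

universe u v

section Defs

variable (P : Type u) [Preorder P]

/-- In the extension the ground model cardinal `κ` is singular: a function from a smaller
cardinal to `κ` has unbounded range. -/
def SingularIs (κ : Cardinal.{v}) : Set P :=
  fex fun μ : Cardinal.{v} => fex fun _ : μ < κ => fex fun R : μ.out → κ.ord.ToType → Set P =>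
    fand (IsFun R) (fall fun b => fex fun x => fex fun y =>
      fand (fground (b ≤ y)) (meets (R x y)))

/-- In the extension there is a set of `κ` many elements of the Baire space which meets every
meager set in a set of size less than `κ`, and which is contained in (so is) a union of fewer
than `κ` meager sets. -/
def HasLuzinUnion (κ : Cardinal.{v}) : Set P :=
  fex fun μ : Cardinal.{v} => fex fun _ : μ < κ =>
    fex fun E : κ.out → ℕ → ℕ → Set P => fex fun M : μ.out → ℕ → List ℕ → Set P =>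
      fand (fall fun i => IsFun (E i))
        (fand (fall fun i => fall fun j => fall fun _ : i ≠ j => fnot (SameReal (E i) (E j)))
          (fand
            (fall fun T : ℕ → List ℕ → Set P =>
              fimp (IsMeagerCode T) (fnot (FullSize fun i => InMeager (E i) T)))
            (fand (fall fun y => IsMeagerCode (M y))
              (fall fun i => fex fun y => InMeager (E i) (M y)))))

end Defs

section Model

variable {W X : Type} (g : X → W)

/-- the coordinates of the Cohen real with index `i : W` -/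
abbrev cc (i : W) (n : ℕ) : (W ⊕ X) × ℕ := (Sum.inl i, n)

/-- the coordinates of the Cohen real with index `x : X` -/
abbrev dd (x : X) (n : ℕ) : (W ⊕ X) × ℕ := (Sum.inr x, n)

/-- the value `v`, if it is different from `w`, and `v + 1` otherwise -/
def mix (v w : ℕ) : ℕ := if v ≠ w then v else v + 1

theorem mix_ne (v w : ℕ) : mix v w ≠ w := by
  unfold mix
  split_ifs with h
  · exact h
  · push Not at h
    omega

/-- The Luzin set: the `d`-real with index `x`, changed so that it is everywhere different from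
the `c`-real with index `g x`. -/
def E (x : X) (n m : ℕ) : Set (Co ((W ⊕ X) × ℕ)) :=
  {p | ∃ v w, p.f (dd x n) = some v ∧ p.f (cc (g x) n) = some w ∧ m = mix v w}

theorem down_E (x : X) (n m : ℕ) : Down (E g x n m) := by
  rintro p ⟨v, w, h1, h2, h3⟩ q hq
  exact ⟨v, w, hq _ _ h1, hq _ _ h2, h3⟩

/-- extend a condition at one more coordinate -/
theorem exists_ext {A : Type} (p : Co A) (a : A) (v : ℕ) : ∃ q ≤ p, (∃ w, q.f a = some w) ∧
    (p.f a = none → q.f a = some v) ∧ ∀ b, b ≠ a → q.f b = p.f b := by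
  cases h : p.f a with
  | none => exact ⟨p.ext a v, Co.ext_le (Or.inl h), ⟨v, Co.ext_self _ _ _⟩,
      fun _ => Co.ext_self _ _ _, fun b hb => Co.ext_ne _ _ hb⟩
  | some w => exact ⟨p, le_rfl, ⟨w, h⟩, by simp, fun _ _ => rfl⟩

theorem exists_val (p : Co ((W ⊕ X) × ℕ)) (x : X) (n v w : ℕ) : ∃ q ≤ p,
    (∃ m, q ∈ E g x n m) ∧
    (p.f (dd x n) = none → p.f (cc (g x) n) = none → q ∈ E g x n (mix v w)) ∧
    ∀ b, b ≠ dd x n → b ≠ cc (g x) n → q.f b = p.f b := by
  obtain ⟨q1, hq1, ⟨v1, hv1⟩, h1, h1'⟩ := exists_ext p (dd x n) v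
  obtain ⟨q2, hq2, ⟨w2, hw2⟩, h2, h2'⟩ := exists_ext q1 (cc (g x) n) w
  refine ⟨q2, hq2.trans hq1, ⟨_, v1, w2, hq2 _ _ hv1, hw2, rfl⟩, fun ha hb => ?_, fun b hb hb' => ?_⟩
  · have e1 : q1.f (cc (g x) n) = none := by
      rw [h1' _ (by simp), hb]
    exact ⟨v, w, hq2 _ _ (h1 ha), h2 e1, rfl⟩
  · rw [h2' b hb', h1' b hb]

theorem E_unique {x : X} {n m m' : ℕ} {p : Co ((W ⊕ X) × ℕ)} (h : p ∈ E g x n m)
    (h' : p ∈ E g x n m') : m = m' := by
  obtain ⟨v, w, h1, h2, rfl⟩ := h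
  obtain ⟨v', w', h1', h2', rfl⟩ := h'
  rw [h1] at h1'
  rw [h2] at h2'
  rw [Option.some.inj h1', Option.some.inj h2']

theorem isFun_of_unique {A : Type} {R : ℕ → ℕ → Set (Co A)} (hd : ∀ n m, Down (R n m))
    (ht : ∀ p n, ∃ q ≤ p, ∃ m, q ∈ R n m) (hu : ∀ p n m m', p ∈ R n m → p ∈ R n m' → m = m')
    (p : Co A) : p ∈ IsFun R := by
  refine ⟨fun n => mem_fex.2 fun q _ => ?_, fun n m m' => mem_fimp.2 fun q _ h => ?_⟩
  · obtain ⟨r, hr, m, hm⟩ := ht q n
    exact ⟨r, hr, m, meets_of_mem hm⟩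
  · obtain ⟨r, hr, hrm⟩ := exists_of_meets (hd n m) h.1
    obtain ⟨r', hr', hrm'⟩ := exists_of_meets (hd n m') (down_meets _ _ h.2 r hr)
    exact ⟨q, le_rfl, hu r' n m m' (hd n m _ hrm _ hr') hrm'⟩

theorem isFun_E (x : X) (p : Co ((W ⊕ X) × ℕ)) : p ∈ IsFun (E g x) :=
  isFun_of_unique (down_E g x) (fun p n => by
    obtain ⟨q, hq, h, -⟩ := exists_val g p x n 0 0
    exact ⟨q, hq, h⟩) (fun p n m m' => E_unique g) p

theorem meets_E_unique {x : X} {n m m' : ℕ} {p : Co ((W ⊕ X) × ℕ)} (h : p ∈ meets (E g x n m))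
    (h' : p ∈ E g x n m') : m = m' :=
  IsFun.unique (isFun_E g x p) h (meets_of_mem h')

/-- a number larger than all coordinates of a condition -/
theorem exists_large {L : Type} (p : Co (L × ℕ)) : ∃ N, ∀ l n, N ≤ n → p.f (l, n) = none := by
  obtain ⟨N, hN⟩ := (p.fin.image Prod.snd).bddAbove
  refine ⟨N + 1, fun l n hn => ?_⟩
  by_contra hne
  have := hN ⟨(l, n), hne, rfl⟩
  simp only at this
  omega

theorem E_distinct {x y : X} (hxy : x ≠ y) (p : Co ((W ⊕ X) × ℕ)) :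
    p ∈ fnot (SameReal (E g x) (E g y)) := by
  intro q _ hsame
  obtain ⟨N, hN⟩ := exists_large q
  -- define the two `d`-reals and the `c`-reals at `N`
  let q1 := ((q.ext (dd x N) 0).ext (dd y N) 5).ext (cc (g x) N) 10
  have hq1 : q1 ≤ (q.ext (dd x N) 0).ext (dd y N) 5 := Co.ext_le (Or.inl (by
    rw [Co.ext_ne _ _ (by simp), Co.ext_ne _ _ (by simp)]
    exact hN _ _ le_rfl))
  have hq0 : (q.ext (dd x N) 0).ext (dd y N) 5 ≤ q.ext (dd x N) 0 := Co.ext_le (Or.inl (by
    rw [Co.ext_ne _ _ (by simp [hxy.symm])]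
    exact hN _ _ le_rfl))
  have hq : q.ext (dd x N) 0 ≤ q := Co.ext_le (Or.inl (hN _ _ le_rfl))
  let q2 := q1.ext (cc (g y) N) 10
  have hq2 : q2 ≤ q1 := by
    apply Co.ext_le
    by_cases h : g x = g y
    · right
      rw [← h]
      exact Co.ext_self _ _ _
    · left
      rw [Co.ext_ne _ _ (by simp [Ne.symm h]), Co.ext_ne _ _ (by simp), Co.ext_ne _ _ (by simp)]
      exact hN _ _ le_rfl
  have hx : q2 ∈ E g x N 0 := ⟨0, 10, hq2 _ _ (hq1 _ _ (hq0 _ _ (Co.ext_self _ _ _))),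
    hq2 _ _ (Co.ext_self _ _ _), rfl⟩
  have hy : q2 ∈ E g y N 5 := ⟨5, 10, hq2 _ _ (hq1 _ _ (Co.ext_self _ _ _)),
    Co.ext_self _ _ _, rfl⟩
  have hle : q2 ≤ q := hq2.trans (hq1.trans (hq0.trans hq))
  have := SameReal.eq (down_SameReal _ _ _ hsame _ hle) (meets_of_mem hx) (meets_of_mem hy)
  omega

/-! ### Genericity -/

/-- A general criterion for genericity: the values at new places can be prescribed. -/
theorem gnr_of {L : Type} {B : Set (L × ℕ)} {R : ℕ → ℕ → Set (Co (L × ℕ))}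
    (hd : ∀ n m, Down (R n m))
    (hval : ∀ (p : Co (L × ℕ)) (n m : ℕ), ∃ q ≤ p, (∃ m', q ∈ R n m') ∧
      ((∀ l, (l, n) ∈ B → p.f (l, n) = none) → q ∈ R n m) ∧
      ∀ l k, k ≠ n → q.f (l, k) = p.f (l, k)) : Gnr B R := by
  -- prescribing the values at finitely many places
  have hpres : ∀ (j : ℕ) (N : ℕ) (t : ℕ → ℕ) (p : Co (L × ℕ)),
      (∀ l n, N ≤ n → (l, n) ∈ B → p.f (l, n) = none) →
      ∃ q ≤ p, ∀ n, N ≤ n → n < N + j → q ∈ R n (t n) := by
    intro j
    induction j with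
    | zero =>
      intro N t p _
      exact ⟨p, le_rfl, fun n h1 h2 => absurd h2 (by omega)⟩
    | succ j ih =>
      intro N t p hp
      obtain ⟨q, hq, -, hq1, hq2⟩ := hval p N (t N)
      obtain ⟨r, hr, hr1⟩ := ih (N + 1) t q (by
        intro l n hn hB
        rw [hq2 l n (by omega)]
        exact hp l n (by omega) hB)
      refine ⟨r, hr.trans hq, fun n h1 h2 => ?_⟩
      rcases h1.eq_or_lt with rfl | h1
      · exact hd _ _ _ (hq1 fun l hl => hp l _ le_rfl hl) _ hr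
      · exact hr1 n h1 (by omega)
  -- deciding the values below `N`
  have hdec : ∀ (N : ℕ) (p : Co (L × ℕ)), ∃ q ≤ p, (∃ s : List ℕ, s.length = N ∧
      ∀ i < N, q ∈ R i (s.getD i 0)) ∧ ∀ l n, N ≤ n → q.f (l, n) = p.f (l, n) := by
    intro N
    induction N with
    | zero =>
      intro p
      exact ⟨p, le_rfl, ⟨[], rfl, fun i hi => absurd hi (by omega)⟩, fun _ _ _ => rfl⟩
    | succ N ih =>
      intro p
      obtain ⟨q, hq, ⟨s, hs, hs'⟩, hq'⟩ := ih p
      obtain ⟨r, hr, ⟨m, hm⟩, -, hr'⟩ := hval q N 0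
      refine ⟨r, hr.trans hq, ⟨s ++ [m], by simp [hs], fun i hi => ?_⟩, fun l n hn => ?_⟩
      · rcases Nat.lt_succ_iff_lt_or_eq.1 hi with h | rfl
        · have e : (s ++ [m]).getD i 0 = s.getD i 0 := by
            rw [List.getD_append _ _ _ _ (by omega)]
          rw [e]
          exact hd _ _ _ (hs' i h) _ hr
        · have e : (s ++ [m]).getD i 0 = m := by
            subst hs
            simp
          rw [e]
          exact hm
      · rw [hr' l n (by omega), hq' l n (by omega)]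
  intro r
  obtain ⟨N, hN⟩ := exists_large r
  obtain ⟨r1, hr1, ⟨s, hs, hs'⟩, hr1'⟩ := hdec N r
  refine ⟨r1, hr1, s, fun i hi => meets_of_mem (hs' i (by omega)), fun r3 hr3 hB t hst => ?_⟩
  obtain ⟨q, hq, hq'⟩ := hpres t.length N (fun n => t.getD n 0) r3 (by
    intro l n hn hl
    apply hB _ hl
    rw [hr1' l n hn]
    exact hN l n hn)
  refine ⟨q, hq, fun i hi => meets_of_mem ?_⟩
  by_cases h : i < N
  · obtain ⟨u, rfl⟩ := hst
    have e : (s ++ u).getD i 0 = s.getD i 0 := by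
      rw [List.getD_append _ _ _ _ (by omega)]
    rw [e]
    exact hd _ _ _ (hs' i h) _ (hq.trans hr3)
  · exact hq' i (by omega) (by omega)

theorem gnr_E (x : X) : Gnr {a : (W ⊕ X) × ℕ | a.1 = Sum.inl (g x) ∨ a.1 = Sum.inr x} (E g x) := by
  refine gnr_of (down_E g x) fun p n m => ?_
  obtain ⟨q, hq, h1, h2, h3⟩ := exists_val g p x n m (m + 1)
  refine ⟨q, hq, h1, fun hB => ?_, fun l k hk => ?_⟩
  · have := h2 (hB _ (Or.inr rfl)) (hB _ (Or.inl rfl))
    have e : mix m (m + 1) = m := by simp [mix]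
    rwa [e] at this
  · exact h3 (l, k) (by simp [hk]) (by simp [hk])

/-- The `d`-real itself. -/
def D (x : X) (n m : ℕ) : Set (Co ((W ⊕ X) × ℕ)) := {p | p.f (dd x n) = some m}

theorem down_D (x : X) (n m : ℕ) : Down (D (W := W) x n m) := by
  intro p h q hq
  exact hq _ _ h

theorem isFun_D (x : X) (p : Co ((W ⊕ X) × ℕ)) : p ∈ IsFun (D (W := W) x) := by
  refine isFun_of_unique (down_D x) (fun p n => ?_) (fun p n m m' h h' => ?_) p
  · obtain ⟨q, hq, h, -⟩ := exists_ext p (dd x n) 0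
    exact ⟨q, hq, h⟩
  · have e1 : p.f (dd x n) = some m := h
    have e2 : p.f (dd x n) = some m' := h'
    rw [e1] at e2
    exact Option.some.inj e2

theorem gnr_D (x : X) : Gnr {a : (W ⊕ X) × ℕ | a.1 = Sum.inr x} (D (W := W) x) := by
  refine gnr_of (down_D x) fun p n m => ?_
  obtain ⟨q, hq, h1, h2, h3⟩ := exists_ext p (dd x n) m
  exact ⟨q, hq, h1, fun hB => h2 (hB _ rfl), fun l k hk => h3 (l, k) (by simp [hk])⟩

/-- The closed nowhere dense set of all reals which are everywhere different from the `c`-real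
with index `i`. -/
def M (i : W) (_k : ℕ) (s : List ℕ) : Set (Co ((W ⊕ X) × ℕ)) :=
  {p | ∀ n < s.length, ∃ w, p.f (cc i n) = some w ∧ s.getD n 0 ≠ w}

theorem down_M (i : W) (k : ℕ) (s : List ℕ) : Down (M (X := X) i k s) := by
  intro p h q hq n hn
  obtain ⟨w, h1, h2⟩ := h n hn
  exact ⟨w, hq _ _ h1, h2⟩

theorem isMeagerCode_M (i : W) (p : Co ((W ⊕ X) × ℕ)) : p ∈ IsMeagerCode (M (X := X) i) := by
  intro k s
  refine mem_fex.2 fun q _ => ?_
  obtain ⟨r, hr, ⟨w, hw⟩, -⟩ := exists_ext q (cc i s.length) 0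
  refine ⟨r, hr, s ++ [w], List.prefix_append _ _, fun t ht htm => ?_⟩
  obtain ⟨t', ht', h⟩ := exists_of_meets (down_M i k _) htm
  obtain ⟨w', h1, h2⟩ := h s.length (by simp)
  have h3 := ht' _ _ (ht _ _ hw)
  rw [h1] at h3
  apply h2
  rw [Option.some.inj h3]
  simp

theorem inMeager_E (x : X) (p : Co ((W ⊕ X) × ℕ)) : p ∈ InMeager (E g x) (M (g x)) := by
  refine mem_fex_of_mem 0 (down_fall fun _ => down_fimp _ _) fun s => mem_fimp.2 fun q _ hs =>
    ⟨q, le_rfl, meets_of_dense fun r hr => ?_⟩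
  -- decide everything below the length of `s`
  have hdec : ∀ N, ∃ t ≤ r, ∀ n < N, ∃ m, t ∈ E g x n m := by
    intro N
    induction N with
    | zero => exact ⟨r, le_rfl, fun n hn => absurd hn (by omega)⟩
    | succ N ih =>
      obtain ⟨t, ht, h⟩ := ih
      obtain ⟨t', ht', h', -⟩ := exists_val g t x N 0 0
      refine ⟨t', ht'.trans ht, fun n hn => ?_⟩
      rcases Nat.lt_succ_iff_lt_or_eq.1 hn with h1 | rfl
      · obtain ⟨m, hm⟩ := h n h1
        exact ⟨m, down_E g x _ _ _ hm _ ht'⟩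
      · exact h'
  obtain ⟨t, ht, h⟩ := hdec s.length
  refine ⟨t, ht, meets_of_mem fun n hn => ?_⟩
  obtain ⟨m, hm⟩ := h n hn
  have h1 : t ∈ meets (E g x n (s.getD n 0)) :=
    down_InitSeg _ _ _ hs _ (ht.trans hr) n hn
  have h2 := meets_E_unique g h1 hm
  obtain ⟨v, w, -, hw, hmw⟩ := hm
  refine ⟨w, hw, ?_⟩
  rw [h2, hmw]
  exact mix_ne v w

/-! ### The extension -/

theorem luzin (hX : ℵ₀ < #X) (hg : ∀ S : Set W, S.Countable → #(g ⁻¹' S) < #X)
    (T : ℕ → List ℕ → Set (Co ((W ⊕ X) × ℕ))) (p : Co ((W ⊕ X) × ℕ)) :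
    p ∈ fimp (IsMeagerCode T) (fnot (FullSize fun x => InMeager (E g x) T)) := by
  refine mem_fimp.2 fun q _ hq => ⟨q, le_rfl, ?_⟩
  choose C hCc hC using fun (k : ℕ) (s : List ℕ) => exists_sup (T k s)
  let C' : Set ((W ⊕ X) × ℕ) := ⋃ k, ⋃ s, C k s
  have hC'c : C'.Countable := Set.countable_iUnion fun k => Set.countable_iUnion fun s => hCc k s
  have hC' : ∀ k s, Sup C' (T k s) := fun k s => hC k s C' (Set.subset_iUnion₂_of_subset k s
    (Set.Subset.refl _))
  let SW : Set W := Sum.inl ⁻¹' (Prod.fst '' C')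
  let SX : Set X := Sum.inr ⁻¹' (Prod.fst '' C')
  have hSW : SW.Countable := (hC'c.image _).preimage Sum.inl_injective
  have hSX : SX.Countable := (hC'c.image _).preimage Sum.inr_injective
  refine Co.ccc.not_fullSize hX (S := g ⁻¹' SW ∪ SX) ?_ fun x hx => ?_
  · refine (Cardinal.mk_union_le _ _).trans_lt (Cardinal.add_lt_of_lt hX.le (hg SW hSW) ?_)
    exact lt_of_le_of_lt (Cardinal.le_aleph0_iff_set_countable.2 hSX) hX
  · refine avoid (gnr_E g x) hC' ?_ hq
    rintro ⟨l, n⟩ (h | h) hmem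
    · have h' : l = Sum.inl (g x) := h
      subst h'
      exact hx (Or.inl ⟨_, hmem, rfl⟩)
    · have h' : l = Sum.inr x := h
      subst h'
      exact hx (Or.inr ⟨_, hmem, rfl⟩)

theorem not_covLe {Y : Type} (hX : ℵ₀ < #X) (hY : #Y < #X) (p : Co ((W ⊕ X) × ℕ)) :
    p ∈ fnot (CovLe (Co ((W ⊕ X) × ℕ)) Y) := by
  intro q _ hcov
  obtain ⟨r, hr, T, hT1, hT2⟩ := mem_fex.1 hcov q le_rfl
  choose C hCc hC using fun (y : Y) (k : ℕ) (s : List ℕ) => exists_sup (T y k s)
  let C' : Y → Set ((W ⊕ X) × ℕ) := fun y => ⋃ k, ⋃ s, C y k s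
  have hC'c : ∀ y, (C' y).Countable := fun y =>
    Set.countable_iUnion fun k => Set.countable_iUnion fun s => hCc y k s
  have hC' : ∀ y k s, Sup (C' y) (T y k s) := fun y k s => hC y k s (C' y)
    (Set.subset_iUnion₂_of_subset k s (Set.Subset.refl _))
  have hcard : #(⋃ y, Sum.inr ⁻¹' (Prod.fst '' C' y) : Set X) < #X := by
    refine (Cardinal.mk_iUnion_le_sum_mk).trans_lt ?_
    refine (Cardinal.sum_le_sum _ (fun _ => ℵ₀) fun y => ?_).trans_lt ?_
    · exact Cardinal.le_aleph0_iff_set_countable.2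
        (((hC'c y).image _).preimage Sum.inr_injective)
    · rw [Cardinal.sum_const']
      exact Cardinal.mul_lt_of_lt hX.le hY hX
  obtain ⟨x, hx⟩ : ∃ x, x ∉ (⋃ y, Sum.inr ⁻¹' (Prod.fst '' C' y) : Set X) := by
    by_contra hcon
    push Not at hcon
    rw [Set.eq_univ_of_forall hcon, Cardinal.mk_univ] at hcard
    exact absurd hcard (lt_irrefl _)
  obtain ⟨s, hs, hs'⟩ := mem_fimp.1 (hT2 (D x)) r le_rfl (isFun_D x r)
  obtain ⟨t, ht, y, hy⟩ := mem_fex.1 hs' s le_rfl
  refine avoid (gnr_D x) (hC' y) ?_ (hT1 y) t (ht.trans hs) hy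
  rintro ⟨l, n⟩ h hmem
  have h' : l = Sum.inr x := h
  subst h'
  exact hx (Set.mem_iUnion.2 ⟨y, ⟨_, hmem, rfl⟩⟩)

end Model

end Pool.Agent.Q307.LU
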