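import Mathlib
import Pool.Agent.Q307.LU.Main
import Pool.Agent.Q307.LU.Card

/-!
# The covering number is singular and some Luzin set is a small union of meager sets
-/

set_option autoImplicit false

namespace Pool.Agent.Q307.LU

open Cardinal Ordinal Pool.Agent.Helper669.Forcing Pool.Agent.Q307.CF

/-- the name of a function of the ground model -/
theorem isFun_chk {P : Type} [Preorder P] {X Y : Type} (h : X → Y) (p : P) :
    p ∈ IsFun fun x y => {_q : P | h x = y} := by
  refine ⟨fun x => mem_fex.2 fun q _ => ⟨q, le_rfl, h x, meets_of_mem rfl⟩,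
    fun x y y' => mem_fimp.2 fun q _ hq => ⟨q, le_rfl, ?_⟩⟩
  obtain ⟨r, _, s, hs, _⟩ := hq.1 q le_rfl
  obtain ⟨r', _, s', hs', _⟩ := hq.2 q le_rfl
  have h1 : h x = y := hs
  have h2 : h x = y' := hs'
  show y = y'
  rw [← h1, h2]

theorem main {κ : Cardinal.{0}} (hκ : κ.IsStrongLimit) (hcof : κ.ord.cof = ℵ₁) :
    ∃ (P : Type) (_ : Preorder P), Nonempty P ∧ ∀ p : P,
      p ∈ CardinalsPreserved.{0, 0} P ∧ p ∈ SingularIs P κ ∧ p ∈ CovIs P κ ∧
        p ∈ HasLuzinUnion P κ := by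
  classical
  obtain ⟨J, _, _, hJ, hIio, hb, g, hg⟩ := exists_order hcof
  have hκ0 : ℵ₀ < κ := aleph0_lt_of_cof hcof
  have hlt : (ℵ₁ : Cardinal.{0}) < κ := by
    refine lt_of_le_of_ne ?_ fun h => ?_
    · rw [← hcof]
      exact cof_ord_le κ
    · have h1 := hκ.isStrongPrelimit hκ0
      rw [← h, ← succ_aleph0] at h1
      exact absurd (Order.succ_le_of_lt (cantor ℵ₀)) (not_le.2 h1)
  -- the index sets
  obtain ⟨e⟩ : Nonempty (κ.out ≃ J) := Cardinal.eq.1 (by rw [mk_out, hJ])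
  have hgi : ∀ x : κ.out, ∃ i, e x ≤ g i := fun x => hg (e x)
  choose G hG using hgi
  have hX : #κ.out = κ := mk_out κ
  have hsmall : ∀ S : Set (ℵ₁ : Cardinal.{0}).out, S.Countable → #(G ⁻¹' S) < #κ.out := by
    intro S hS
    obtain ⟨b, hb'⟩ := hb (g '' S) (hS.image g)
    have h1 : #(G ⁻¹' S) ≤ #(Set.Iio b) := by
      refine Cardinal.mk_le_of_injective (f := fun x : G ⁻¹' S =>
        (⟨e x.1, lt_of_le_of_lt (hG x.1) (hb' _ ⟨_, x.2, rfl⟩)⟩ : Set.Iio b)) ?_
      intro x y h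
      exact Subtype.ext (e.injective (congrArg Subtype.val h))
    rw [hX]
    exact h1.trans_lt (hIio b)
  let P := Co (((ℵ₁ : Cardinal.{0}).out ⊕ κ.out) × ℕ)
  have hcard : #P ≤ κ := by
    refine Co.mk_le.trans (max_le ?_ hκ0.le)
    rw [mk_prod, mk_sum]
    simp only [Cardinal.lift_uzero, mk_out, mk_nat, Cardinal.lift_id, Cardinal.lift_aleph0]
    calc (ℵ₁ + κ) * ℵ₀ ≤ (κ + κ) * κ := mul_le_mul' (add_le_add hlt.le le_rfl) hκ0.le
      _ = κ := by rw [add_eq_self hκ0.le, mul_eq_self hκ0.le]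
  refine ⟨P, inferInstance, inferInstance, fun p => ⟨Co.ccc.cardinalsPreserved p, ?_, ⟨?_, ?_⟩, ?_⟩⟩
  · -- `κ` is singular
    have hc : ∃ h : (ℵ₁ : Cardinal.{0}).out → κ.ord.ToType, ∀ b, ∃ x, b ≤ h x := by
      have hc : Order.cof κ.ord.ToType = ℵ₁ := by rw [cof_toType, hcof]
      obtain ⟨s, hs, hs'⟩ := Order.exists_cof_eq κ.ord.ToType
      rw [hc] at hs'
      obtain ⟨e'⟩ : Nonempty ((ℵ₁ : Cardinal.{0}).out ≃ s) := Cardinal.eq.1 (by rw [mk_out, hs'])
      refine ⟨fun y => (e' y).1, fun b => ?_⟩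
      obtain ⟨c, hc, hbc⟩ := hs b
      exact ⟨e'.symm ⟨c, hc⟩, by simpa using hbc⟩
    obtain ⟨h, hh⟩ := hc
    refine mem_fex_of_mem ℵ₁ (down_fex _) (mem_fex_of_mem hlt (down_fex _)
      (mem_fex_of_mem (fun x y => {_q : P | h x = y}) (down_fand (down_IsFun _)
        (down_fall fun _ => down_fex _)) ⟨isFun_chk h p, fun b => ?_⟩))
    obtain ⟨x, hx⟩ := hh b
    refine mem_fex_of_mem x (down_fex _) (mem_fex_of_mem (h x) (down_fand (down_fground _)
      (down_meets _)) ⟨hx, meets_of_mem rfl⟩)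
  · -- `cov(M) ≤ κ`
    exact covLe_of_continuumLe (Co.ccc.continuumLe hκ0.le hcard (pow_aleph0_eq hκ hcof) p)
  · -- `cov(M) ≥ κ`
    intro μ hμ
    exact not_covLe (by rwa [hX]) (by rwa [hX, mk_out]) p
  · -- the Luzin set
    refine mem_fex_of_mem ℵ₁ (down_fex _) (mem_fex_of_mem hlt (down_fex _) ?_)
    refine mem_fex_of_mem (fun x => E G x) (down_fex _) ?_
    have hdown : ∀ (E' : κ.out → ℕ → ℕ → Set P) (M' : (ℵ₁ : Cardinal.{0}).out → ℕ → List ℕ → Set P),
        Down (fand (fall fun i => IsFun (E' i))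
        (fand (fall fun i => fall fun j => fall fun _ : i ≠ j => fnot (SameReal (E' i) (E' j)))
          (fand
            (fall fun T : ℕ → List ℕ → Set P =>
              fimp (IsMeagerCode T) (fnot (FullSize fun i => InMeager (E' i) T)))
            (fand (fall fun y => IsMeagerCode (M' y))
              (fall fun i => fex fun y => InMeager (E' i) (M' y)))))) := fun E' M' =>
      down_fand (down_fall fun _ => down_IsFun _)
        (down_fand (down_fall fun _ => down_fall fun _ => down_fall fun _ => down_fnot _)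
          (down_fand (down_fall fun _ => down_fimp _ _)
            (down_fand (down_fall fun _ => down_IsMeagerCode _) (down_fall fun _ => down_fex _))))
    refine mem_fex_of_mem (fun i => M i) (hdown _ _) ⟨fun i => isFun_E G i p, fun i j hij =>
      E_distinct G hij p, fun T => luzin G (by rwa [hX]) hsmall T p, fun y => isMeagerCode_M y p,
      fun i => mem_fex_of_mem (G i) (down_InMeager _ _) (inMeager_E G i p)⟩

theorem exists_cardinal : ∃ κ : Cardinal.{0}, κ.IsStrongLimit ∧ κ.ord.cof = ℵ₁ :=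
  ⟨ℶ_ ω₁, isStrongLimit_beth.2 (isSuccLimit_omega 1).isSuccPrelimit, cof_beth⟩

end Pool.Agent.Q307.LU
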